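import Mathlib

set_option autoImplicit false

open Set Cardinal

namespace Pool.Agent.Results.MP_632b8e_gt.NonKGroup

universe u

/-- The subgroup of `{1,-1}^I` of all functions which are constant off a countable set. -/
def sigmaGroup (I : Type) : Subgroup (I → ℤˣ) where
  carrier := {x | ∃ c : ℤˣ, {i | x i ≠ c}.Countable}
  mul_mem' := by
    rintro x y ⟨c, hc⟩ ⟨d, hd⟩
    refine ⟨c * d, (hc.union hd).mono ?_⟩
    intro i hi
    by_contra h
    simp only [mem_union, mem_ofPred_eq, not_or, not_not] at h
    exact hi (by simp [h.1, h.2])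
  one_mem' := ⟨1, by simp⟩
  inv_mem' := by
    rintro x ⟨c, hc⟩
    refine ⟨c⁻¹, hc.mono ?_⟩
    intro i hi h
    exact hi (by simp [h])

/-- Every sequence in the group lies in a compact subset. -/
lemma exists_compact (I : Type) (f : ℕ → sigmaGroup I) :
    ∃ K : Set (sigmaGroup I), IsCompact K ∧ ∀ n, f n ∈ K := by
  choose c hc using fun n => (f n).2
  set S : Set I := ⋃ n, {i | (f n : I → ℤˣ) i ≠ c n} with hS
  have hScount : S.Countable := countable_iUnion hc
  set K' : Set (I → ℤˣ) := ⋃ d : ℤˣ, {x | ∀ i, i ∉ S → x i = d} with hK'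
  have hclosed : ∀ d : ℤˣ, IsClosed {x : I → ℤˣ | ∀ i, i ∉ S → x i = d} := by
    intro d
    have : {x : I → ℤˣ | ∀ i, i ∉ S → x i = d} = ⋂ i, ⋂ (_ : i ∉ S), {x | x i = d} := by
      ext x; simp
    rw [this]
    exact isClosed_iInter fun i => isClosed_iInter fun _ =>
      isClosed_eq (continuous_apply i) continuous_const
  have hK'c : IsCompact K' := by
    apply isCompact_iUnion
    intro d
    exact (hclosed d).isCompact
  have hsub : K' ⊆ (sigmaGroup I : Set (I → ℤˣ)) := by
    intro x hx
    rw [hK', mem_iUnion] at hx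
    obtain ⟨d, hd⟩ := hx
    refine ⟨d, hScount.mono ?_⟩
    intro i hi
    by_contra h
    exact hi (hd i h)
  refine ⟨Subtype.val ⁻¹' K', ?_, ?_⟩
  · rw [Subtype.isCompact_iff, image_preimage_eq_of_subset]
    · exact hK'c
    · intro x hx
      exact ⟨⟨x, hsub hx⟩, rfl⟩
  · intro n
    rw [mem_preimage, hK', mem_iUnion]
    refine ⟨c n, ?_⟩
    intro i hi
    by_contra h
    exact hi (mem_iUnion.mpr ⟨n, h⟩)

/-- There are no fans in the group. -/
lemma no_fan (I : Type) (ι : Type u) (F : ι → Set (sigmaGroup I))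
    (hF : ∀ K : Set (sigmaGroup I), IsCompact K → {i | (F i ∩ K).Nonempty}.Finite) :
    LocallyFinite F := by
  have hfin : {i | (F i).Nonempty}.Finite := by
    by_contra hinf
    have hinf' : {i | (F i).Nonempty}.Infinite := hinf
    set e := hinf'.natEmbedding
    choose x hx using fun n => (e n).2
    obtain ⟨K, hK, hxK⟩ := exists_compact I x
    have h1 := hF K hK
    have h2 : (range fun n => ((e n : {i | (F i).Nonempty}) : ι)) ⊆ {i | (F i ∩ K).Nonempty} := by
      rintro _ ⟨n, rfl⟩
      exact ⟨x n, hx n, hxK n⟩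
    exact (infinite_range_of_injective
      (Subtype.val_injective.comp e.injective)) (h1.subset h2)
  intro x
  refine ⟨univ, Filter.univ_mem, hfin.subset ?_⟩
  intro i hi
  exact hi.mono inter_subset_left

/-- Closing-off: one step. -/
def step {I : Type} (f : Finset I → Set I) (A : Set I) : Set I :=
  A ∪ ⋃ F : Finset A, f (F.map (Function.Embedding.subtype _))

lemma mk_step_le {I : Type} (f : Finset I → Set I) (hf : ∀ F, (f F).Countable) (A : Set I)
    (κ : Cardinal) (hκ : ℵ₀ ≤ κ) (hA : A.Infinite) (hAκ : #A ≤ κ) : #(step f A) ≤ κ := by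
  have : Infinite A := hA.to_subtype
  refine (mk_union_le _ _).trans ?_
  refine add_le_of_le hκ hAκ ?_
  refine (mk_iUnion_le _).trans ?_
  refine mul_le_of_le hκ ?_ ?_
  · rw [mk_finset_of_infinite]; exact hAκ
  · refine (ciSup_le' ?_)
    intro F
    exact (le_aleph0_iff_set_countable.mpr (hf _)).trans hκ

lemma closing_off {I : Type} (f : Finset I → Set I) (hf : ∀ F, (f F).Countable) (A : Set I)
    (κ : Cardinal) (hκ : ℵ₀ ≤ κ) (hA : A.Infinite) (hAκ : #A ≤ κ) :
    ∃ T : Set I, A ⊆ T ∧ #T ≤ κ ∧ ∀ F : Finset I, (F : Set I) ⊆ T → f F ⊆ T := by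
  classical
  set B : ℕ → Set I := fun n => (step f)^[n] A with hB
  have hBsucc : ∀ n, B (n + 1) = step f (B n) := fun n => by
    simp only [hB, Function.iterate_succ', Function.comp]
  have hmono : ∀ n, B n ⊆ B (n + 1) := fun n => by
    rw [hBsucc]; exact subset_union_left
  have hmono' : Monotone B := monotone_nat_of_le_succ hmono
  have hB0 : B 0 = A := rfl
  have hinf : ∀ n, (B n).Infinite := fun n => hA.mono (by
    have := hmono' (Nat.zero_le n)
    rwa [hB0] at this)
  have hcard : ∀ n, #(B n) ≤ κ := by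
    intro n
    induction n with
    | zero => exact hAκ
    | succ n ih => rw [hBsucc]; exact mk_step_le f hf _ κ hκ (hinf n) ih
  refine ⟨⋃ n, B n, ?_, ?_, ?_⟩
  · exact subset_iUnion B 0
  · refine (mk_iUnion_le _).trans ?_
    refine mul_le_of_le hκ ?_ (ciSup_le' hcard)
    simpa using hκ
  · intro F hF
    obtain ⟨n, hn⟩ : ∃ n, (F : Set I) ⊆ B n :=
      Directed.exists_mem_subset_of_finset_subset_biUnion hmono'.directed_le hF
    refine Subset.trans ?_ (subset_iUnion B (n + 1))
    rw [hBsucc]
    refine Subset.trans ?_ subset_union_right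
    have hFF : F = ((F.subtype (· ∈ B n)).map (Function.Embedding.subtype _)) := by
      ext i
      simp only [Finset.mem_map, Finset.mem_subtype, Function.Embedding.coe_subtype,
        Subtype.exists, exists_and_left, exists_prop, exists_eq_right_right]
      constructor
      · intro hi; exact ⟨hi, hn hi⟩
      · rintro ⟨hi, _⟩; exact hi
    intro i hi
    rw [mem_iUnion]
    refine ⟨F.subtype (· ∈ B n), ?_⟩
    rw [← hFF]
    exact hi

lemma isOpen_cyl {I : Type} (z : I → ℤˣ) (E : Finset I) :
    IsOpen {x : I → ℤˣ | ∀ i ∈ E, x i = z i} := by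
  have : {x : I → ℤˣ | ∀ i ∈ E, x i = z i} = ⋂ i ∈ E, {x | x i = z i} := by
    ext x; simp
  rw [this]
  refine isOpen_biInter_finset fun i _ => ?_
  have h : IsOpen ((fun x : I → ℤˣ => x i) ⁻¹' {z i}) :=
    (isOpen_discrete _).preimage (continuous_apply i)
  exact h

/-- Membership of a closure in the product: `z` is in the closure of `s` as soon as it can be
matched on every finite set of coordinates. -/
lemma mem_closure_pi {I : Type} {s : Set (I → ℤˣ)} {z : I → ℤˣ} :
    z ∈ closure s ↔ ∀ E : Finset I, ∃ x ∈ s, ∀ i ∈ E, x i = z i := by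
  constructor
  · intro hz E
    obtain ⟨x, hx1, hx2⟩ := mem_closure_iff.mp hz _ (isOpen_cyl z E) (fun i _ => rfl)
    exact ⟨x, hx2, hx1⟩
  · intro h
    rw [mem_closure_iff]
    intro o ho hzo
    rw [isOpen_pi_iff] at ho
    obtain ⟨E, u, hu, hsub⟩ := ho z hzo
    obtain ⟨x, hx, hxE⟩ := h E
    exact ⟨x, hsub (fun i hi => by rw [hxE i hi]; exact (hu i hi).2), hx⟩

/-- The index set. -/
abbrev Idx : Type := Set (Set ℕ)

/-- The dense proper subgroup of functions of countable support. -/
def small : Set (sigmaGroup Idx) := {x | {i | (x : Idx → ℤˣ) i ≠ 1}.Countable}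

lemma uncountable_range : ¬ (range fun s : Set ℕ => ({s} : Idx)).Countable := by
  intro h
  have hc : Countable (Set ℕ) := by
    have := h.to_subtype
    exact (Set.rangeFactorization_injective.mpr
      (fun a b hab => singleton_injective hab)).countable
  have h1 : #(Set ℕ) ≤ ℵ₀ := mk_le_aleph0
  rw [mk_set, mk_nat] at h1
  exact absurd (cantor _) (not_lt.mpr h1)

lemma key (K : Set (sigmaGroup Idx)) (hK : IsCompact K) (y : sigmaGroup Idx)
    (hy : y ∈ closure (small ∩ K)) : y ∈ small := by
  classical
  by_contra hys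
  -- the support of `y` is co-countable
  obtain ⟨c, hc⟩ := y.2
  have hcne : c = -1 := by
    rcases Int.units_eq_one_or c with h | h
    · exact absurd (by rw [h] at hc; exact hc) hys
    · exact h
  subst hcne
  -- approximations
  have happ : ∀ E : Finset Idx, ∃ x : sigmaGroup Idx, x ∈ small ∩ K ∧
      ∀ i ∈ E, (x : Idx → ℤˣ) i = (y : Idx → ℤˣ) i := by
    intro E
    have : (y : Idx → ℤˣ) ∈ closure (Subtype.val '' (small ∩ K)) :=
      image_closure_subset_closure_image continuous_subtype_val ⟨y, hy, rfl⟩
    obtain ⟨x, ⟨x', hx', rfl⟩, hx⟩ := mem_closure_pi.mp this E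
    exact ⟨x', hx', hx⟩
  choose x hx1 hx2 using happ
  have hinj : Function.Injective (fun s : Set ℕ => ({s} : Idx)) :=
    fun a b hab => singleton_injective hab
  have hAinf : (range fun s : Set ℕ => ({s} : Idx)).Infinite :=
    infinite_range_of_injective hinj
  obtain ⟨T, hAT, hTκ, hT⟩ := closing_off (fun E => {i | (x E : Idx → ℤˣ) i ≠ 1})
    (fun E => (hx1 E).1) (range fun s : Set ℕ => ({s} : Idx)) (#(Set ℕ))
    (aleph0_le_mk _) hAinf (mk_range_le)
  set z : Idx → ℤˣ := fun i => if i ∈ T then (y : Idx → ℤˣ) i else 1 with hz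
  have hzK : z ∈ Subtype.val '' K := by
    have hclosed : IsClosed (Subtype.val '' K : Set (Idx → ℤˣ)) :=
      (hK.image continuous_subtype_val).isClosed
    rw [← hclosed.closure_eq, mem_closure_pi]
    intro E
    refine ⟨x (E.filter (· ∈ T)), ⟨_, (hx1 _).2, rfl⟩, ?_⟩
    intro i hi
    by_cases hiT : i ∈ T
    · rw [hx2 _ i (by simp [hi, hiT])]
      simp [hz, hiT]
    · have h1 : i ∉ {i | (x (E.filter (· ∈ T)) : Idx → ℤˣ) i ≠ 1} := by
        intro h
        exact hiT (hT (E.filter (· ∈ T)) (by intro j hj; simpa using (Finset.mem_filter.mp hj).2) h)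
      simp only [mem_ofPred_eq, not_not] at h1
      rw [h1]
      simp [hz, hiT]
  obtain ⟨g, -, hg⟩ := hzK
  obtain ⟨d, hd⟩ := g.2
  rw [hg] at hd
  rcases Int.units_eq_one_or d with h | h
  · subst h
    apply uncountable_range
    refine (hd.union hc).mono ?_
    intro i hi
    have hiT := hAT hi
    by_contra hcon
    simp only [mem_union, mem_ofPred_eq, not_or, not_not] at hcon
    simp only [hz, if_pos hiT] at hcon
    have := hcon.1.symm.trans hcon.2
    exact absurd this (by decide)
  · subst h
    have hTc : (Tᶜ).Countable := by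
      refine hd.mono ?_
      intro i hi
      simp only [mem_compl_iff] at hi
      simp [hz, hi]
    have h1 : #Idx ≤ #(Set ℕ) := by
      have h2 : #Idx = #(univ : Set Idx) := mk_univ.symm
      rw [h2, ← union_compl_self T]
      refine (mk_union_le _ _).trans ?_
      refine add_le_of_le (aleph0_le_mk _) hTκ ?_
      exact (le_aleph0_iff_set_countable.mpr hTc).trans (aleph0_le_mk _)
    have h3 : #Idx = 2 ^ #(Set ℕ) := mk_set
    rw [h3] at h1
    exact absurd (cantor _) (not_lt.mpr h1)

/-- **Theorem.** There is a Hausdorff topological group `G` (abelian, in fact of exponent two)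
which contains no fan at all - every compact-finite indexed family of subsets of `G` is locally
finite; in particular `G` contains no Cld-fan - and which is not a `k`-space. -/
theorem result :
    ∃ (G : Type) (_ : CommGroup G) (_ : TopologicalSpace G),
      IsTopologicalGroup G ∧ T2Space G ∧
      (∀ (ι : Type u) (F : ι → Set G),
        (∀ K : Set G, IsCompact K → {i | (F i ∩ K).Nonempty}.Finite) → LocallyFinite F) ∧
      ∃ C : Set G, (∀ K : Set G, IsCompact K → IsClosed ((Subtype.val : K → G) ⁻¹' C)) ∧
        ¬ IsClosed C := by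
  refine ⟨sigmaGroup Idx, inferInstance, inferInstance, inferInstance, inferInstance,
    fun ι F hF => no_fan Idx ι F hF, small, ?_, ?_⟩
  · intro K hK
    rw [← closure_subset_iff_isClosed]
    intro y hy
    rw [mem_preimage]
    refine key K hK y ?_
    have : (y : sigmaGroup Idx) ∈ closure (Subtype.val '' ((Subtype.val : K → _) ⁻¹' small)) :=
      image_closure_subset_closure_image continuous_subtype_val ⟨y, hy, rfl⟩
    refine closure_mono ?_ this
    rintro _ ⟨w, hw, rfl⟩
    exact ⟨hw, w.2⟩
  · intro hcl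
    -- the constant function `-1` is in the closure of `small`
    have hmem : (fun _ => -1 : Idx → ℤˣ) ∈ sigmaGroup Idx := ⟨-1, by simp⟩
    have h1 : (⟨fun _ => -1, hmem⟩ : sigmaGroup Idx) ∈ closure small := by
      classical
      rw [closure_subtype, mem_closure_pi]
      intro E
      have hcount : {i : Idx | (fun i => if i ∈ E then (-1 : ℤˣ) else 1) i ≠ 1}.Countable := by
        refine (E.countable_toSet).mono ?_
        intro i hi
        by_contra h
        have : i ∉ E := h
        simp [this] at hi
      refine ⟨fun i => if i ∈ E then -1 else 1, ⟨⟨_, ⟨1, hcount⟩⟩, hcount, rfl⟩, ?_⟩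
      intro i hi
      simp [hi]
    rw [hcl.closure_eq] at h1
    have h2 : ((univ : Set Idx)).Countable := by
      refine Countable.mono ?_ h1
      intro i _
      show (-1 : ℤˣ) ≠ 1
      decide
    exact uncountable_range (h2.mono (subset_univ _))

end Pool.Agent.Results.MP_632b8e_gt.NonKGroup
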